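import Pool.Agent.P.MP_10147b_co.Sharp.Lower

namespace Pool.Agent.Results.MP_10147b_co.ExactOrder

open Filter Pool.Agent.P.MP_10147b_co Pool.Agent.P.MP_10147b_co.Sharp

/-- the inverse Ackermann function: the least `i` with `m ≤ ack i i` -/
noncomputable def alpha (m : ℕ) : ℕ := sInf {i | m ≤ ack i i}

theorem result : ∃ c C : ℝ, 0 < c ∧ ∀ᶠ m : ℕ in atTop,
    (∀ k : ℕ, 3 ≤ k → c * Real.sqrt (m * alpha m) ≤ sp m k) ∧
      (sp m 3 : ℝ) ≤ C * Real.sqrt (m * alpha m) := by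
  refine ⟨1 / 157, 51, by norm_num, ?_⟩
  filter_upwards [eventually_gt_atTop (ack 1542 1542)] with m hm
  have h1 : m ≤ ack (alpha m) (alpha m) :=
    Nat.sInf_mem (s := {i | m ≤ ack i i}) ⟨m, (lt_ack_left m m).le⟩
  have h2 : alpha m ≤ m := Nat.sInf_le (lt_ack_left m m).le
  have h3 : ∀ i, i < alpha m → ack i i < m := fun i hi =>
    not_le.1 (Nat.notMem_of_lt_sInf (s := {i | m ≤ ack i i}) hi)
  have h4 : 1542 < alpha m := by
    by_contra h
    exact absurd (h1.trans (ack_le_ack (not_lt.1 h) (not_lt.1 h))) (not_le.2 hm)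
  clear hm
  generalize alpha m = a at *
  have hs : ∀ t : ℕ, m * a ≤ t ^ 2 → Real.sqrt (m * a) ≤ t := fun t ht =>
    Real.sqrt_le_iff.2 ⟨Nat.cast_nonneg t, by exact_mod_cast ht⟩
  have hs' : ∀ (t q : ℕ), t ^ 2 ≤ q ^ 2 * (m * a) → (t : ℝ) ≤ q * Real.sqrt (m * a) := by
    intro t q ht
    rw [← Real.sqrt_sq (Nat.cast_nonneg q), ← Real.sqrt_mul (sq_nonneg _)]
    exact Real.le_sqrt_of_sq_le (by exact_mod_cast ht)
  refine ⟨fun k hk => ?_, ?_⟩
  · have a1 := Nat.sqrt_le' ((a - 6) / 1536)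
    have a2 := Nat.lt_succ_sqrt' ((a - 6) / 1536)
    have a3 : 1 ≤ Nat.sqrt ((a - 6) / 1536) := Nat.le_sqrt.2 (by omega)
    generalize Nat.sqrt ((a - 6) / 1536) = K at *
    have a4 := le_sp a3 hk ((ack_mono_right _ (by omega)).trans
      (h3 (1536 * K ^ 2 + 5) (by omega)).le)
    have a5 := Nat.lt_succ_sqrt' m
    have a6 : 1 ≤ Nat.sqrt m := Nat.le_sqrt.2 (by omega)
    generalize Nat.sqrt m = r at *
    have a7 : a ≤ 6150 * K ^ 2 := by
      have : K.succ ^ 2 ≤ 4 * K ^ 2 := by rw [Nat.succ_eq_add_one]; nlinarith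
      have : 1 ≤ K ^ 2 := Nat.one_le_pow _ _ a3
      omega
    have a8 : m ≤ 4 * r ^ 2 := by rw [Nat.succ_eq_add_one] at a5; nlinarith
    have a9 := hs (157 * (K * r)) ((Nat.mul_le_mul a8 a7).trans (by nlinarith))
    have a10 : ((K * r : ℕ) : ℝ) ≤ sp m k := by exact_mod_cast a4
    push_cast at a9 a10
    linarith
  · have a1 := Nat.sqrt_le' (m / a)
    have a2 := Nat.lt_succ_sqrt' (m / a)
    rw [Nat.succ_eq_add_one] at a2
    generalize Nat.sqrt (m / a) = t at *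
    have a3 := sp_le (s := t + 1) h1 (by omega)
    have a4 : m / a * a ≤ m := Nat.div_mul_le_self _ _
    have a5 : m < (t + 1) ^ 2 * a := (Nat.div_lt_iff_lt_mul (by omega)).1 a2
    have a6 : m / (t + 1) * (t + 1) ≤ m := Nat.div_mul_le_self _ _
    have a7 := hs' (a * (t + 1)) 2 (by
      have b1 : (t + 1) ^ 2 ≤ 2 * (m / a) + 2 := by nlinarith [sq_nonneg ((t : ℤ) - 1)]
      have b2 := Nat.mul_le_mul_left (a ^ 2) b1
      have b3 := Nat.mul_le_mul_left a a4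
      have b4 := Nat.mul_le_mul_left a h2
      nlinarith)
    have a8 := hs' (m / (t + 1)) 1 (by
      refine Nat.le_of_mul_le_mul_right (c := (t + 1) ^ 2) ?_ (by positivity)
      have b1 := Nat.mul_le_mul a6 a6
      have b2 := Nat.mul_le_mul_left m a5.le
      nlinarith)
    have a9 : sp m 3 ≤ 24 * (a * (t + 1)) + 3 * (m / (t + 1)) := by
      have : (12 * a + 12) * (t + 1) ≤ 24 * a * (t + 1) := Nat.mul_le_mul_right _ (by omega)
      nlinarith
    have a10 : (sp m 3 : ℝ) ≤ 24 * ((a * (t + 1) : ℕ) : ℝ) + 3 * ((m / (t + 1) : ℕ) : ℝ) := by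
      exact_mod_cast a9
    rw [Nat.cast_ofNat] at a7
    rw [Nat.cast_one] at a8
    linarith

end Pool.Agent.Results.MP_10147b_co.ExactOrder
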