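import Pool.Agent.P.MP_10147b_co.Comb

namespace Pool.Agent.Results.MP_10147b_co.Superlinear

open Filter Pool.Agent.P.MP_10147b_co

theorem result (k : ℕ) (hk : 3 ≤ k) :
    Tendsto (fun m : ℕ => (sp m k : ℝ) / Real.sqrt m) atTop atTop := by
  rw [tendsto_atTop]
  intro b
  obtain ⟨K, hK⟩ := exists_nat_ge (2 * b)
  obtain ⟨r0, h0⟩ := main_comb (K := K + 1) (by omega)
  filter_upwards [eventually_ge_atTop ((r0 + 1) * (r0 + 1))] with m hm
  have hr : r0 + 1 ≤ Nat.sqrt m := Nat.le_sqrt.2 hm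
  have hne : {n | ∃ u : List ℕ, u.length = m ∧ LSP u k = n}.Nonempty :=
    ⟨_, List.replicate m 0, by simp, rfl⟩
  obtain ⟨u, hu, hsp⟩ := Nat.sInf_mem hne
  obtain ⟨w, w1, w2, w3⟩ := h0 u (Nat.sqrt m) (by omega) (hu ▸ Nat.sqrt_le m)
  have hw : w ≠ [] := by
    rintro rfl
    simp only [List.length_nil] at w3
    nlinarith
  have h1 : w.length ≤ sp m k := by
    unfold sp
    rw [← hsp]
    refine le_csSup ⟨u.length, ?_⟩ ⟨w, w1, w2.realized hw hk, rfl⟩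
    rintro n ⟨v, hv, -, rfl⟩
    exact hv.length_le
  have h2 : ((K + 1 : ℕ) : ℝ) * (Nat.sqrt m : ℝ) ≤ sp m k := by exact_mod_cast w3.trans h1
  have h3 : (1 : ℝ) ≤ Nat.sqrt m := by exact_mod_cast (by omega : 1 ≤ Nat.sqrt m)
  have h4 : Real.sqrt m ≤ 2 * (Nat.sqrt m : ℝ) := by
    have := Real.real_sqrt_le_nat_sqrt_succ (a := m)
    linarith
  have h5 : 0 < Real.sqrt m := by
    apply Real.sqrt_pos.2
    exact_mod_cast (by nlinarith : 0 < m)
  rw [le_div_iff₀ h5]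
  push_cast at h2
  have h6 : (0 : ℝ) ≤ K := Nat.cast_nonneg K
  nlinarith

end Pool.Agent.Results.MP_10147b_co.Superlinear
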